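import Mathlib

/-! KD Part I, piece A5: elementary log inequalities (MP_019250_an) -/

namespace KD.I.A5

theorem E1_aux (x y a b lam : ℝ) (hx : 0 < x) (hy : 0 < y) (hlam : 0 < lam)
    (hb : lam ≤ b) (hxy : x ≤ y) :
    lam / 2 * ((y - x) * (Real.log y - Real.log x)) - x * (b - a) ^ 2 / (2 * lam) ≤
      (b * y - a * x) * (Real.log y - Real.log x) := by
  have hL : 0 ≤ Real.log y - Real.log x := sub_nonneg.2 (Real.log_le_log hx hxy)
  have hxL : x * (Real.log y - Real.log x) ≤ y - x := by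
    rw [← Real.log_div hy.ne' hx.ne']
    have h := Real.log_le_sub_one_of_pos (div_pos hy hx)
    have h2 := mul_le_mul_of_nonneg_left h hx.le
    have h3 : x * (y / x - 1) = y - x := by
      field_simp
    linarith
  generalize Real.log y - Real.log x = L at hL hxL
  have h1 : lam * ((y - x) * L) ≤ b * ((y - x) * L) :=
    mul_le_mul_of_nonneg_right hb (mul_nonneg (sub_nonneg.2 hxy) hL)
  have h2 : -(x * (b - a) ^ 2 / (2 * lam)) - lam / 2 * (x * L ^ 2) ≤ (b - a) * x * L := by
    have h4 : 0 ≤ x * ((b - a) + lam * L) ^ 2 / (2 * lam) := by positivity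
    have h5 : x * ((b - a) + lam * L) ^ 2 / (2 * lam) =
        x * (b - a) ^ 2 / (2 * lam) + (b - a) * x * L + lam / 2 * (x * L ^ 2) := by
      field_simp
      ring
    linarith
  have h3 : lam / 2 * (x * L ^ 2) ≤ lam / 2 * ((y - x) * L) := by
    refine mul_le_mul_of_nonneg_left ?_ (by positivity)
    have := mul_le_mul_of_nonneg_right hxL hL
    nlinarith [this]
  have h4 : (b * y - a * x) * L = b * ((y - x) * L) + (b - a) * x * L := by ring
  rw [h4]
  linarith

theorem E1 (x y a b lam : ℝ) (hx : 0 < x) (hy : 0 < y) (hlam : 0 < lam) (ha : lam ≤ a) (hb : lam ≤ b) :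
    lam / 2 * ((y - x) * (Real.log y - Real.log x)) - min x y * (b - a) ^ 2 / (2 * lam) ≤
      (b * y - a * x) * (Real.log y - Real.log x) := by
  rcases le_total x y with h | h
  · rw [min_eq_left h]
    exact E1_aux x y a b lam hx hy hlam hb h
  · rw [min_eq_right h]
    have := E1_aux y x b a lam hy hx hlam ha h
    have e1 : (b * y - a * x) * (Real.log y - Real.log x) =
      (a * x - b * y) * (Real.log x - Real.log y) := by ring
    have e2 : (y - x) * (Real.log y - Real.log x) = (x - y) * (Real.log x - Real.log y) := by ring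
    have e3 : (b - a) ^ 2 = (a - b) ^ 2 := by ring
    rw [e1, e2, e3]
    exact this

theorem E2 (u u' : ℝ) (hu : 0 < u) (hu' : 0 ≤ u') :
    u' * Real.log u' ≤ u * Real.log u + (u' - u) * (1 + Real.log u) + (u' - u) ^ 2 / u := by
  rcases hu'.eq_or_lt with h | h
  · rw [← h]
    have : (0 - u) ^ 2 / u = u := by
      field_simp
      ring
    rw [this]
    nlinarith
  · have h1 := Real.log_le_sub_one_of_pos (div_pos h hu)
    rw [Real.log_div h.ne' hu.ne'] at h1
    have h2 := mul_le_mul_of_nonneg_left h1 hu'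
    have h3 : (u' - u) ^ 2 / u = u' * (u' / u - 1) - (u' - u) := by
      field_simp
    rw [h3]
    nlinarith

/-- convexity of `t log t` -/
theorem E2' (u u' : ℝ) (hu : 0 < u) (hu' : 0 < u') :
    u' * Real.log u' + (u - u') * (1 + Real.log u') ≤ u * Real.log u := by
  have h1 := Real.log_le_sub_one_of_pos (div_pos hu' hu)
  rw [Real.log_div hu'.ne' hu.ne'] at h1
  have h2 := mul_le_mul_of_nonneg_left h1 hu.le
  have h3 : u * (u' / u - 1) = u' - u := by
    field_simp
  rw [h3] at h2
  nlinarith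

theorem two_mul_le_log (r : ℝ) (hr : 1 ≤ r) : 2 * (r - 1) / (r + 1) ≤ Real.log r := by
  set x : ℝ := (r - 1) / (r + 1) with hx
  have hr1 : 0 < r + 1 := by linarith
  have hx0 : 0 ≤ x := div_nonneg (by linarith) hr1.le
  have hx1 : x < 1 := by
    rw [hx, div_lt_one hr1]
    linarith
  have h := Real.hasSum_log_sub_log_of_abs_lt_one (x := x) (by rw [abs_of_nonneg hx0]; exact hx1)
  have h2 := le_hasSum h 0 (fun k _ => by positivity)
  have h3 : Real.log (1 + x) - Real.log (1 - x) = Real.log r := by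
    rw [← Real.log_div (by linarith) (by linarith)]
    congr 1
    rw [hx]
    field_simp
    ring
  rw [h3] at h2
  have h4 : 2 * (r - 1) / (r + 1) = (2 : ℝ) * (1 / (2 * ((0 : ℕ) : ℝ) + 1)) * x ^ (2 * 0 + 1) := by
    rw [hx]
    simp
    ring
  rw [h4]
  exact h2

theorem E3_aux (x y : ℝ) (hx : 0 < x) (hxy : x ≤ y) :
    4 * (√y - √x) ^ 2 ≤ (y - x) * (Real.log y - Real.log x) := by
  have hy : 0 < y := hx.trans_le hxy
  have hs : 0 < √x := Real.sqrt_pos.2 hx
  have ht : 0 < √y := Real.sqrt_pos.2 hy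
  have hst : √x ≤ √y := Real.sqrt_le_sqrt hxy
  have ex : x = √x ^ 2 := (Real.sq_sqrt hx.le).symm
  have ey : y = √y ^ 2 := (Real.sq_sqrt hy.le).symm
  have key : ∀ s t : ℝ, 0 < s → 0 < t → s ≤ t →
      4 * (t - s) ^ 2 ≤ (t ^ 2 - s ^ 2) * (Real.log (t ^ 2) - Real.log (s ^ 2)) := by
    intro s t hs ht hst
    rw [Real.log_pow, Real.log_pow]
    push_cast
    have h1 := two_mul_le_log (t / s) ((one_le_div hs).2 hst)
    rw [Real.log_div ht.ne' hs.ne'] at h1
    have h2 : 2 * (t / s - 1) / (t / s + 1) = 2 * (t - s) / (t + s) := by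
      field_simp
    rw [h2, div_le_iff₀ (by linarith)] at h1
    have h3 := mul_le_mul_of_nonneg_left h1 (by linarith : (0 : ℝ) ≤ 2 * (t - s))
    nlinarith
  calc 4 * (√y - √x) ^ 2 ≤ (√y ^ 2 - √x ^ 2) * (Real.log (√y ^ 2) - Real.log (√x ^ 2)) :=
        key _ _ hs ht hst
    _ = (y - x) * (Real.log y - Real.log x) := by rw [← ex, ← ey]

theorem E3 (x y : ℝ) (hx : 0 < x) (hy : 0 < y) :
    4 * (√y - √x) ^ 2 ≤ (y - x) * (Real.log y - Real.log x) := by
  rcases le_total x y with h | h
  · exact E3_aux x y hx h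
  · have := E3_aux y x hy h
    have e1 : (√y - √x) ^ 2 = (√x - √y) ^ 2 := by ring
    have e2 : (y - x) * (Real.log y - Real.log x) = (x - y) * (Real.log x - Real.log y) := by ring
    rw [e1, e2]
    exact this

end KD.I.A5
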