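import Pool.Agent.Helper37.KD.DefsC

/-! KD Part I, piece D2: moments of kernels (MP_019250_an) -/

namespace KD.I.D2

open Finset

theorem nrm_nonneg {d N : ℕ} (r R : ℝ) (hr : 0 < r) (hR : 0 < R) (w : GG d N) :
    0 ≤ nrm r R w := by
  unfold nrm n1
  positivity

theorem one_add_pow_le (x : ℝ) (hx : 0 ≤ x) (p : ℕ) :
    (1 + x) ^ p ≤ (2 ^ p * (p.factorial : ℝ) * Real.exp (1 / 2)) * Real.exp (x / 2) := by
  have h := Real.pow_div_factorial_le_exp ((1 + x) / 2) (by positivity) p
  have hf : (0 : ℝ) < (p.factorial : ℝ) := by exact_mod_cast p.factorial_pos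
  rw [div_le_iff₀ hf, div_pow, div_le_iff₀ (by positivity)] at h
  have he : Real.exp ((1 + x) / 2) = Real.exp (1 / 2) * Real.exp (x / 2) := by
    rw [← Real.exp_add]
    congr 1
    ring
  rw [he] at h
  calc (1 + x) ^ p ≤ _ := h
    _ = _ := by ring

/-- polynomial moments of the kernels from the exponential moment -/
theorem ker_moment (d : ℕ) (C1 : ℝ) (p : ℕ) : ∃ C : ℝ, 0 < C ∧
    ∀ (N : ℕ) [NeZero N] (r R : ℝ) (q : GG d N → ℝ), 0 < r → 0 < R → Ker r R C1 q →
      ∑ w, q w * (1 + nrm r R w) ^ p ≤ C := by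
  refine ⟨(2 ^ p * (p.factorial : ℝ) * Real.exp (1 / 2)) * (|C1| + 1), ?_, ?_⟩
  · have hf : (0 : ℝ) < (p.factorial : ℝ) := by exact_mod_cast p.factorial_pos
    positivity
  · intro N _ r R q hr hR hq
    set c : ℝ := 2 ^ p * (p.factorial : ℝ) * Real.exp (1 / 2) with hc
    have hc0 : 0 ≤ c := by positivity
    calc ∑ w, q w * (1 + nrm r R w) ^ p
        ≤ ∑ w, c * (q w * Real.exp (nrm r R w / 2)) := by
          refine Finset.sum_le_sum fun w _ => ?_
          have := mul_le_mul_of_nonneg_left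
            (one_add_pow_le (nrm r R w) (nrm_nonneg r R hr hR w) p) (hq.pos w).le
          rw [← hc] at this
          linarith
      _ = c * ∑ w, q w * Real.exp (nrm r R w / 2) := by rw [Finset.mul_sum]
      _ ≤ c * (|C1| + 1) := by
          refine mul_le_mul_of_nonneg_left ?_ hc0
          linarith [hq.mom, le_abs_self C1]

end KD.I.D2
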