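import Pool.Agent.Helper37.KD.DefsC

/-! KD Part I, piece H5: partition function (MP_019250_an) -/

namespace KD.I.H5

open Finset

/-- the one dimensional sum -/
noncomputable def S1 (N : ℕ) [NeZero N] (R : ℝ) : ℝ :=
  ∑ i : ZMod N, Real.exp (-((i.valMinAbs.natAbs : ℝ) / R))

theorem sum_val (N : ℕ) [NeZero N] (g : ℕ → ℝ) :
    ∑ i : ZMod N, g i.val = ∑ v ∈ range N, g v := by
  refine Finset.sum_bij (fun i _ => i.val) ?_ ?_ ?_ ?_
  · intro i _
    exact mem_range.2 (ZMod.val_lt i)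
  · intro i _ j _ h
    exact ZMod.val_injective N h
  · intro v hv
    exact ⟨(v : ZMod N), mem_univ _, ZMod.val_cast_of_lt (mem_range.1 hv)⟩
  · intro i _
    rfl

theorem S1_eq (N : ℕ) [NeZero N] (R : ℝ) :
    S1 N R = ∑ v ∈ range N, Real.exp (-(((min v (N - v) : ℕ) : ℝ) / R)) := by
  rw [← sum_val N (fun v => Real.exp (-(((min v (N - v) : ℕ) : ℝ) / R)))]
  unfold S1
  refine Finset.sum_congr rfl fun i _ => ?_
  rw [ZMod.valMinAbs_natAbs_eq_min]

theorem geom_le (R : ℝ) (hR : 1 ≤ R) (N : ℕ) :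
    ∑ v ∈ range N, Real.exp (-((v : ℝ) / R)) ≤ 2 * R := by
  have hR0 : 0 < R := by linarith
  set a : ℝ := Real.exp (-(1 / R)) with ha
  have ha0 : 0 < a := Real.exp_pos _
  have ha1 : a * (1 + 1 / R) ≤ 1 := by
    have h1 := Real.add_one_le_exp (1 / R)
    calc a * (1 + 1 / R) ≤ a * Real.exp (1 / R) :=
          mul_le_mul_of_nonneg_left (by linarith) ha0.le
      _ = 1 := by rw [ha, ← Real.exp_add]; simp
  have hlt : a < 1 := by
    rw [ha, Real.exp_lt_one_iff]
    have : 0 < 1 / R := by positivity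
    linarith
  have h2 : ∀ v : ℕ, Real.exp (-((v : ℝ) / R)) = a ^ v := by
    intro v
    rw [ha, ← Real.exp_nat_mul]
    congr 1
    ring
  simp only [h2]
  have h3 : (∑ v ∈ range N, a ^ v) * (1 - a) ≤ 1 := by
    have := geom_sum_mul_neg a N
    rw [this]
    have : 0 ≤ a ^ N := by positivity
    linarith
  have h4 : 1 ≤ (1 - a) * (2 * R) := by
    have h5 : a * (R + 1) ≤ R := by
      have := mul_le_mul_of_nonneg_left ha1 hR0.le
      have e : R * (a * (1 + 1 / R)) = a * (R + 1) := by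
        field_simp
      linarith
    nlinarith
  have h6 : 0 ≤ ∑ v ∈ range N, a ^ v := Finset.sum_nonneg fun v _ => by positivity
  have h7 := mul_le_mul_of_nonneg_left h4 h6
  have h8 := mul_le_mul_of_nonneg_right h3 (by linarith : (0 : ℝ) ≤ 2 * R)
  nlinarith

theorem S1_le (N : ℕ) [NeZero N] (R : ℝ) (hR : 1 ≤ R) : S1 N R ≤ 4 * R := by
  have hR0 : 0 < R := by linarith
  rw [S1_eq]
  have h1 : ∀ v ∈ range N, Real.exp (-(((min v (N - v) : ℕ) : ℝ) / R)) ≤
      Real.exp (-((v : ℝ) / R)) + Real.exp (-(((N - 1 - v : ℕ) : ℝ) / R)) := by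
    intro v hv
    have hv' := mem_range.1 hv
    rcases le_total v (N - v) with h | h
    · rw [min_eq_left h]
      have := Real.exp_pos (-(((N - 1 - v : ℕ) : ℝ) / R))
      linarith
    · rw [min_eq_right h]
      have h2 : Real.exp (-(((N - v : ℕ) : ℝ) / R)) ≤ Real.exp (-(((N - 1 - v : ℕ) : ℝ) / R)) := by
        apply Real.exp_le_exp.2
        have : ((N - 1 - v : ℕ) : ℝ) ≤ ((N - v : ℕ) : ℝ) := by
          exact_mod_cast (by omega : N - 1 - v ≤ N - v)
        have := div_le_div_of_nonneg_right this hR0.le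
        linarith
      have := Real.exp_pos (-((v : ℝ) / R))
      linarith
  refine (Finset.sum_le_sum h1).trans ?_
  rw [Finset.sum_add_distrib]
  have h2 := Finset.sum_range_reflect (fun v => Real.exp (-((v : ℝ) / R))) N
  have h3 := geom_le R hR N
  have h4 : ∑ j ∈ range N, Real.exp (-(((N - 1 - j : ℕ) : ℝ) / R)) =
    ∑ j ∈ range N, Real.exp (-((j : ℝ) / R)) := h2
  rw [h4]
  linarith

theorem le_S1 (N : ℕ) [NeZero N] (R : ℝ) (hR : 1 ≤ R) (hRN : R ≤ N) :
    R ≤ 4 * S1 N R := by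
  have hR0 : 0 < R := by linarith
  rw [S1_eq]
  set m : ℕ := min N (⌊R⌋₊ + 1) with hm
  have hmR : R ≤ m := by
    rw [hm, Nat.cast_min]
    refine le_min hRN ?_
    push_cast
    exact (Nat.lt_floor_add_one R).le
  have h1 : ∑ v ∈ range m, (1 / 4 : ℝ) ≤
      ∑ v ∈ range N, Real.exp (-(((min v (N - v) : ℕ) : ℝ) / R)) := by
    refine (Finset.sum_le_sum (g := fun v => Real.exp (-(((min v (N - v) : ℕ) : ℝ) / R))) ?_).trans
      (Finset.sum_le_sum_of_subset_of_nonneg (range_mono (min_le_left _ _)) ?_)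
    · intro v hv
      have hv' : v < m := mem_range.1 hv
      have h2 : (v : ℝ) ≤ R := by
        have h3 : v ≤ ⌊R⌋₊ := by
          have := min_le_right N (⌊R⌋₊ + 1)
          omega
        exact (Nat.le_floor_iff hR0.le).1 h3
      have h3 : (((min v (N - v) : ℕ) : ℝ) / R) ≤ 1 := by
        rw [div_le_one hR0]
        refine le_trans ?_ h2
        exact_mod_cast min_le_left _ _
      have h4 : Real.exp (-1) ≤ Real.exp (-(((min v (N - v) : ℕ) : ℝ) / R)) :=
        Real.exp_le_exp.2 (by linarith)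
      refine le_trans ?_ h4
      rw [Real.exp_neg, one_div]
      refine inv_anti₀ (Real.exp_pos 1) ?_
      have := Real.exp_one_lt_d9
      linarith
    · intro v _ _
      exact (Real.exp_pos _).le
  rw [Finset.sum_const, card_range, nsmul_eq_mul] at h1
  linarith

theorem sum_V (d N : ℕ) [NeZero N] (R : ℝ) :
    ∑ x : V d N, Real.exp (-(n1 x / R)) = S1 N R ^ d := by
  unfold S1
  rw [Fintype.sum_pow]
  refine Finset.sum_congr rfl fun x _ => ?_
  rw [← Real.exp_sum]
  congr 1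
  unfold n1
  rw [Finset.sum_div, ← Finset.sum_neg_distrib]

theorem sum_GG (d N : ℕ) [NeZero N] (r R : ℝ) :
    ∑ z : GG d N, Real.exp (- nrm r R z) = S1 N R ^ d * S1 N r ^ d := by
  rw [← sum_V, ← sum_V, Finset.sum_mul_sum, ← Finset.sum_product', ← Finset.univ_product_univ]
  refine Finset.sum_congr rfl fun z _ => ?_
  rw [← Real.exp_add]
  congr 1
  unfold nrm
  ring

/-- partition function of the Gibbs weight -/
theorem gibbs_Z (d : ℕ) : ∃ C : ℝ, 0 < C ∧ ∀ (N : ℕ) [NeZero N] (r R : ℝ), 1 ≤ r → 1 ≤ R →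
    r ≤ N → R ≤ N →
    ∑ z : GG d N, Real.exp (- nrm r R z) ≤ C * (r ^ d * R ^ d) ∧
    r ^ d * R ^ d ≤ C * ∑ z : GG d N, Real.exp (- nrm r R z) := by
  refine ⟨16 ^ d, by positivity, ?_⟩
  intro N _ r R hr hR hrN hRN
  rw [sum_GG]
  have hS : ∀ ρ : ℝ, 0 ≤ S1 N ρ := fun ρ => Finset.sum_nonneg fun i _ => (Real.exp_pos _).le
  constructor
  · have h1 : S1 N R ^ d ≤ (4 * R) ^ d := pow_le_pow_left₀ (hS R) (S1_le N R hR) d
    have h2 : S1 N r ^ d ≤ (4 * r) ^ d := pow_le_pow_left₀ (hS r) (S1_le N r hr) d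
    calc S1 N R ^ d * S1 N r ^ d ≤ (4 * R) ^ d * (4 * r) ^ d :=
          mul_le_mul h1 h2 (pow_nonneg (hS r) d) (by positivity)
      _ = 16 ^ d * (r ^ d * R ^ d) := by
          rw [← mul_pow, ← mul_pow, ← mul_pow]
          congr 1
          ring
  · have h1 : R ^ d ≤ (4 * S1 N R) ^ d := pow_le_pow_left₀ (by linarith) (le_S1 N R hR hRN) d
    have h2 : r ^ d ≤ (4 * S1 N r) ^ d := pow_le_pow_left₀ (by linarith) (le_S1 N r hr hrN) d
    calc r ^ d * R ^ d ≤ (4 * S1 N r) ^ d * (4 * S1 N R) ^ d :=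
          mul_le_mul h2 h1 (by positivity) (by have := hS r; positivity)
      _ = 16 ^ d * (S1 N R ^ d * S1 N r ^ d) := by
          rw [← mul_pow, ← mul_pow, ← mul_pow]
          congr 1
          ring

end KD.I.H5
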